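import Pool.Agent.S04942

set_option autoImplicit false

namespace Pool.Agent.Results.MP_ecafc5_an.Diverge

open Filter Topology

/-- A dictionary of a real normed space. -/
def IsDict {X : Type} [NormedAddCommGroup X] [NormedSpace ℝ X] (D : Set X) : Prop :=
  (∀ g ∈ D, ‖g‖ ≤ 1) ∧ (∀ g ∈ D, -g ∈ D) ∧ Dense ((Submodule.span ℝ D : Submodule ℝ X) : Set X)

/-- The modulus of smoothness is at most `γ u^q` for all `u > 0`. -/
def PowerType (X : Type) [NormedAddCommGroup X] [NormedSpace ℝ X] (q γ : ℝ) : Prop :=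
  ∀ x y : X, ‖x‖ = 1 → ‖y‖ = 1 → ∀ u : ℝ, 0 < u →
    (‖x + u • y‖ + ‖x - u • y‖) / 2 - 1 ≤ γ * u ^ q

/-- `f` is the residual sequence of a never stopping admissible run of WDGA(t). -/
def IsRun {X : Type} [NormedAddCommGroup X] [NormedSpace ℝ X] (t : ℝ) (D : Set X)
    (f : ℕ → X) : Prop :=
  ∀ m, f m ≠ 0 ∧ ∃ (F : X →L[ℝ] ℝ) (φ : X) (a : ℝ), ‖F‖ = 1 ∧ F (f m) = ‖f m‖ ∧
    φ ∈ D ∧ t * sSup (F '' D) ≤ F φ ∧ (∀ b : ℝ, ‖f m - a • φ‖ ≤ ‖f m - b • φ‖) ∧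
    f (m + 1) = f m - a • φ

theorem result :
    ∃ (X : Type) (_ : NormedAddCommGroup X) (_ : NormedSpace ℝ X) (_ : CompleteSpace X)
      (q γ : ℝ) (D : Set X) (f : ℕ → X), 1 < q ∧ q ≤ 2 ∧ PowerType X q γ ∧ IsDict D ∧
      (∀ t : ℝ, 0 < t → t ≤ 1 → IsRun t D f) ∧
      ¬ Tendsto (fun m => ‖f m‖) atTop (𝓝 0) := by
  have h := Pool.Agent.S04942.result
  push Not at h
  obtain ⟨X, i1, i2, i3, q, γ, h1, h2, h3, D, d1, d2, d3, f, F, φ, a, r1, r2, r3, r4, r5⟩ := h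
  refine ⟨X, i1, i2, i3, q, γ, D, f, h1, h2, h3, ⟨fun g hg => (d1 g hg).le, d2, d3⟩,
    fun t t0 t1 m => ⟨fun h0 => r5 ?_, F m, φ m, a m, (r1 m).1, (r1 m).2, (r2 m).1, ?_, r3 m,
      r4 m⟩, fun h => r5 (tendsto_zero_iff_norm_tendsto_zero.2 h)⟩
  · have hz : ∀ k, f (m + k) = 0 := by
      intro k
      induction k with
      | zero => exact h0
      | succ k ih =>
        have := r3 (m + k) 0
        rw [← r4, zero_smul, sub_zero, ih, norm_zero] at this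
        exact norm_le_zero_iff.1 this
    refine tendsto_const_nhds.congr' ?_
    filter_upwards [eventually_ge_atTop m] with k hk
    obtain ⟨j, rfl⟩ := Nat.exists_eq_add_of_le hk
    exact (hz j).symm
  · have hs : sSup (F m '' D) = F m (φ m) :=
      IsGreatest.csSup_eq ⟨⟨_, (r2 m).1, rfl⟩, by rintro _ ⟨g, hg, rfl⟩; exact (r2 m).2 g hg⟩
    have hp : 0 ≤ F m (φ m) := by
      have := (r2 m).2 _ (d2 _ (r2 m).1)
      rw [map_neg] at this; linarith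
    rw [hs]; nlinarith

end Pool.Agent.Results.MP_ecafc5_an.Diverge
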